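import Pool.Agent.Q226.IL.Main

/-!
# Independence of `ℓ` of the local Euler factors of the motives cut out by arbitrary idempotents

Let `p` be a prime number and `M = (X, π, r)` a Chow motive over `ℚ`, where `X` is a product of smooth
complete intersections in projective spaces, curves, surfaces and abelian varieties over `ℚ` (with any
reduction at `p`), and `π` is an ARBITRARY idempotent correspondence. We prove that for all degrees `i`
the polynomials `P^i_{p,ℓ}(M, T) = det (1 - T F | V^i_ℓ(M)^I)`, `ℓ ≠ p`, have rational coefficients and
do not depend on `ℓ`.

More generally this holds for all Chow motives `(X, π, r)` if the Kuenneth projectors of `X` are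
algebraic and the weight-monodromy conjecture holds for the cohomology of `X` at `p`.

Known facts which are used as hypotheses: T. Saito's theorem on the independence of `ℓ` of the
alternating sums of the traces of correspondences and elements of positive degree of the Weil group;
Grothendieck's monodromy theorem; weight-monodromy and Kuenneth projectors for the varieties above.

Proved here: the traces of `r(F ^ n g)` on the part of `V = H^j(X)` cut out by `π` are those of `ρ`,
hence rational and independent of `ℓ`; the mean value over the finite image of inertia, for two primes
`ℓ`, `ℓ'` with a common finite quotient; the eigenvalues for `ℓ'` are killed by the same rational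
polynomials as for `ℓ`; rational polynomials `P_w` (the same for `ℓ` and `ℓ'`) such that `P_w(F)` is the
projection onto the part of weight at most `w`; and the formula, for the invariants of inertia,

  `Tr (F ^ n | V^I) = Tr (F ^ n P_w(F) e) - p ^ n Tr (F ^ n P_{w-2}(F) e)`,

where `e` is the projection onto the invariants of the finite image of inertia in the part cut out by
`π` (purity: `N` is injective on the parts of weight more than `w`, and surjective from the part of weight
`j ≤ w` onto the part of weight `j - 2`).
-/

set_option autoImplicit false

open Polynomial

namespace Pool.Agent.Results.MP_a3c811_ag.ArbitraryIdempotents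

open Pool.Agent.Q226.IL

/-- **Independence of `ℓ` of local Euler factors.** Let `D` be the smooth projective varieties over `ℚ`,
their correspondences and their `ℓ`-adic cohomology, with the action of the Weil group at `p` (`hD`: known
facts for all varieties, in particular T. Saito's theorem).

* The geometric Frobenius on `V^i_ℓ(M)^I` is well defined.
* If the Kuenneth projectors of `X` are algebraic and the weight-monodromy conjecture holds for `X` at `p`,
  then for all idempotent correspondences `π` on `X` and all `r`, `i`, the polynomials `P^i_{p,ℓ}(M, T)`
  of `M = (X, π, r)` have rational coefficients and do not depend on `ℓ`.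
* This is so if `X` is a product of complete intersections, curves, surfaces, abelian varieties. -/
theorem result (D : Data) (hD : D.Facts) :
    (∀ (M : Motive D) (i : ℤ) (l : D.Pr), D.WellDefined M i l) ∧
    (∀ M : Motive D, D.HasKuenneth M.X → D.IsPure M.X → ∀ i : ℤ, D.Independent M i) ∧
    ∀ C : VarClass D, C.Facts → ∀ M : Motive D, C.Generated M.X → ∀ i : ℤ, D.Independent M i :=
  ⟨fun M i l => Data.wellDefined hD M i l, fun M h1 h2 i => Data.independent hD M h1 h2 i,
    fun _ hC M hM i => Data.independent_of_generated hD hC M hM i⟩

end Pool.Agent.Results.MP_a3c811_ag.ArbitraryIdempotents
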