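import Pool.Agent.Q56.WD.Main

/-!
# Independence of `ℓ` of local Euler factors of motives and of Weil–Deligne representations

Let `p` be a prime. The `ℓ`-adic realisation `V^i_ℓ(M)` of a motive `M` over `ℚ` defines a
Weil–Deligne representation `(r, N)` of the Weil group `W` at `p`, and the Euler factor of `M` in
degree `i` is `det (1 - T Φ)` on the invariants of inertia in the kernel of `N`.

Fix `M`, a degree `i` and a number `m`. The Euler factors in the one degree `i + m` of all the
motives `M ⊗ Sym^m h^1(E) ⊗ h(F)`, where `E` is an elliptic curve with split multiplicative reduction
at `p` and `F` runs through the number fields with one place above `p`, are rational and independent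
of `ℓ` if and only if for all `w` in `W` (those of inertia included) the polynomials
`det (1 - T w)` on the kernel of `N ^ (m + 1)` are rational and independent of `ℓ`.

So the question has a positive answer for all motives if and only if all the Weil–Deligne
representations, up to Frobenius semisimplification, are rational and independent of `ℓ`.
-/

set_option autoImplicit false

namespace Pool.Agent.Results.MP_a3c811_ag.MonodromyLevels

open Pool.Agent.Q56.WD

/-- **Euler factors and the levels of the monodromy filtration by kernels.** -/
theorem result (D : Data) :
    (∀ (M : D.Mot) (i : ℤ) (m : ℕ),
      (∀ H : Subgroup D.G.W, IsOpen (H : Set D.G.W) → H.FiniteIndex →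
        D.Independent (D.art (D.sym M m) H) (i + m)) ↔ D.Level M i (m + 1)) ∧
    ((∀ M i, D.Independent M i) ↔ ∀ M i m, D.Level M i m) :=
  ⟨fun M i m => (D.level_iff M i m).symm, D.all_iff⟩

end Pool.Agent.Results.MP_a3c811_ag.MonodromyLevels
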