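import Pool.Agent.Q187.IL.Main

/-!
# Independence of `ℓ` of the local Euler factors of motives: one degree suffices

If for some integer `i₀` the local factors at `p` of all Chow motives over `ℚ` in the single degree
`i₀` have rational coefficients and do not depend on `ℓ`, then so do the local factors at `p` of
all Chow motives in all degrees. (Tate twists, and tensor products with `h^1` of an elliptic curve
with good ordinary reduction at `p`.)
-/

set_option autoImplicit false

namespace Pool.Agent.Results.MP_a3c811_ag.OneDegreeSuffices

open Pool.Agent.Q187.IL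

theorem result (D : Data) (p : ℕ) (hp : p.Prime) (hT : D.HasTwists p)
    (E : Curve D) (hE : E.IsOrdinary p) (hE' : E.HasTensor) :
    (∀ i₀ : ℤ, (∀ M, D.Independent M i₀) ↔ ∀ M i, D.Independent M i) ∧
    (¬ (∀ M i, D.Independent M i) → ∀ i : ℤ, ∃ M, ¬ D.Independent M i) := by
  refine ⟨fun i₀ => ⟨fun h => independent_all hp hT E hE hE' i₀ h, fun h M => h M i₀⟩, ?_⟩
  intro h i
  by_contra hc
  push Not at hc
  exact h fun M j => independent_all hp hT E hE hE' i hc M j

end Pool.Agent.Results.MP_a3c811_ag.OneDegreeSuffices
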