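import Pool.Agent.Q219.WF.Fam

/-!
# Local Euler factors and the weight-monodromy conjecture for one prime `ℓ`

(1)-(3) `M` is any family of representations `V^i_ℓ(M)` of the Weil group at `p` to which Weil-Deligne
representations are attached (`Fam`), for example the family of a Chow motive over `ℚ`. Nothing else is
assumed. Let the weight-monodromy conjecture at `p` hold for `V^i_ℓ(M)` with one prime `ℓ ≠ p`. If the
local Euler factors with respect to `ℓ` and to a second prime `ℓ'` of all twists of `M` by Artin motives
and by powers of the motive of one elliptic curve are rational and agree, then the conjecture holds for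
`V^i_ℓ'(M)`. The converse holds if the traces of the elements of the Weil group are independent of `ℓ`.

(4) For all motives, if the known properties `Facts` hold, the traces are independent of `ℓ` and the
weight-monodromy conjecture holds for one `ℓ`, then the question has a positive answer at `p` if and only
if the conjecture holds for all `ℓ`.
-/

set_option autoImplicit false

namespace Pool.Agent.Results.MP_a3c811_ag.WeightMonodromyOnePrime

open Pool.Agent.Q187.IL (Data Curve)
open Pool.Agent.Q219.WD Pool.Agent.Q219.WF

theorem result (p : ℕ) (hp : p.Prime) {G : Type} [Group G] [TopologicalSpace G]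
    [IsTopologicalGroup G] (I : Subgroup G) [I.Normal] (F : G) (hG : IsWeilGroup I F) {L : Type}
    (K : L → Type) [∀ l, Field (K l)] [∀ l, CharZero (K l)] (t : ∀ l, G → K l)
    (ht : ∀ l, IsTame I (t l)) {W : L → Type} [∀ l, AddCommGroup (W l)] [∀ l, Module (K l) (W l)]
    [∀ l, FiniteDimensional (K l) (W l)] (s : ∀ l, Representation (K l) G (W l))
    (hs : ∀ l, IsTate p I F (t l) (s l)) :
    (∀ (M : Fam p I F K t) (i w : ℤ) (l l' : L), WM (data p I F K t) p t w l M i →
      (∀ M' i', Twist (curve p I F K t s) M i M' i' → SameFactor (data p I F K t) l l' M' i') →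
      WM (data p I F K t) p t w l' M i) ∧
    (∀ (M : Fam p I F K t) (i w : ℤ) (l l' : L), WM (data p I F K t) p t w l M i →
      WM (data p I F K t) p t w l' M i → SameTraces (data p I F K t) l l' M i →
      ∀ M' i', Twist (curve p I F K t s) M i M' i' → SameFactor (data p I F K t) l l' M' i') ∧
    (∀ (M : Fam p I F K t) (i w : ℤ), (∃ l, WM (data p I F K t) p t w l M i) →
      (∀ l l', SameTraces (data p I F K t) l l' M i) →
      ((∀ M' i', Twist (curve p I F K t s) M i M' i' → (data p I F K t).Independent M' i') ↔
        ∀ l, WM (data p I F K t) p t w l M i)) ∧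
    (∀ (D : Data) [TopologicalSpace D.G] [IsTopologicalGroup D.G] (t : ∀ l, D.G → D.K l)
      (E : Curve D), Facts D p t E → (∀ M i l l', SameTraces D l l' M i) →
      (∀ M i, ∃ l, WM D p t i l M i) →
      ((∀ M i, D.Independent M i) ↔ ∀ M i l, WM D p t i l M i)) := by
  have h := facts hp.ne_zero hG ht s hs
  have h3 : ∀ (D : Data) (M : D.Mot) (i : ℤ) (l l' : D.Pr), D.Independent M i →
      SameFactor D l l' M i := by
    rintro D M i l l' ⟨P, hP⟩
    exact ⟨P, hP l, hP l'⟩
  refine ⟨fun M i w l l' h1 h2 => wm_of_factors hp h h1 h2,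
    fun M i w l l' h1 h2 h3 M' i' h4 => factors_of_wm hp h h1 h2 h3 h4, ?_, ?_⟩
  · rintro M i w ⟨l₀, hl₀⟩ hT
    exact ⟨fun hQ l => wm_of_factors hp h hl₀ fun M' i' h4 => h3 _ _ _ _ _ (hQ M' i' h4),
      fun hW M' i' h4 => independent_of_pairs fun l l' =>
        factors_of_wm hp h (hW l) (hW l') (hT l l') h4⟩
  · intro D _ _ t E h hT hW₀
    refine ⟨fun hQ M i l => ?_, fun hW M i => independent_of_pairs fun l l' =>
      factors_of_wm hp h (hW M i l) (hW M i l') (hT M i l l') Twist.refl⟩
    obtain ⟨l₀, hl₀⟩ := hW₀ M i
    exact wm_of_factors hp h hl₀ fun M' i' _ => h3 _ _ _ _ _ (hQ M' i')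

end Pool.Agent.Results.MP_a3c811_ag.WeightMonodromyOnePrime
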